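import Pool.Agent.Helper24.HW.Stmts

/-! The comb-ladder with the standard rotation has at most two circuits. -/

set_option autoImplicit false

namespace Pool.Agent.Helper78.HW

open Equiv Equiv.Perm Pool.Agent.Helper24.HW Pool.Agent.Helper24.HWPub Pool.Agent.Helper98.Gn

/-- a property that is invariant under `θ` and holds for two darts holds everywhere -/
theorem c0_all (k j : ℕ) [NeZero k] (R : TT k j → Prop)
    (hR : ∀ x, R (rot k j 0 (ngf k j x)) ↔ R x)
    (hA : R (Sum.inl (⟨j, by have := NeZero.pos k; omega⟩, 2)))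
    (hB : R (Sum.inl (⟨j, by have := NeZero.pos k; omega⟩, 1))) : ∀ x, R x := by
  have hk := NeZero.pos k
  -- the steps
  have t0 : ∀ (i : ℕ) (hi : i + 1 < k + j), R (Sum.inl (⟨i + 1, hi⟩, 0)) ↔
      R (Sum.inl (⟨i, by omega⟩, 0)) := by
    intro i hi
    have := hR (Sum.inl (⟨i + 1, hi⟩, 0))
    simpa [ngf, rot] using this.symm
  have t00 : R (Sum.inl (⟨0, by omega⟩, 0)) ↔ R (Sum.inr (Sum.inr (Sum.inr 0))) := by
    have := hR (Sum.inl (⟨0, by omega⟩, 0))
    simpa [ngf, rot] using this.symm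
  have e0 : R (Sum.inr (Sum.inr (Sum.inr 0))) ↔ R (Sum.inl (⟨0, by omega⟩, 1)) := by
    have := hR (Sum.inr (Sum.inr (Sum.inr 0)))
    simpa [ngf, rot] using this.symm
  have t1 : ∀ (i : ℕ) (hi : i < j), R (Sum.inl (⟨i, by omega⟩, 1)) ↔
      R (Sum.inr (Sum.inr (Sum.inl ⟨i, hi⟩))) := by
    intro i hi
    have := hR (Sum.inl (⟨i, by omega⟩, 1))
    simpa [ngf, rot, hi] using this.symm
  have p1 : ∀ (i : ℕ) (hi : i < j), R (Sum.inr (Sum.inr (Sum.inl ⟨i, hi⟩))) ↔
      R (Sum.inl (⟨i, by omega⟩, 2)) := by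
    intro i hi
    have := hR (Sum.inr (Sum.inr (Sum.inl ⟨i, hi⟩)))
    simpa [ngf, rot] using this.symm
  have t1' : ∀ (i : ℕ) (hi : i < k), R (Sum.inl (⟨j + i, by omega⟩, 1)) ↔
      R (Sum.inr (Sum.inl (⟨i, hi⟩, 2))) := by
    intro i hi
    have := hR (Sum.inl (⟨j + i, by omega⟩, 1))
    have h1 : ¬ (j + i < j) := by omega
    simpa [ngf, rot, h1] using this.symm
  have t2 : ∀ (i : ℕ) (hi : i + 1 < k + j), R (Sum.inl (⟨i, by omega⟩, 2)) ↔
      R (Sum.inl (⟨i + 1, hi⟩, 1)) := by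
    intro i hi
    have := hR (Sum.inl (⟨i, by omega⟩, 2))
    simpa [ngf, rot, hi] using this.symm
  have e1 : R (Sum.inr (Sum.inr (Sum.inr 1))) ↔ R (Sum.inl (⟨k + j - 1, by omega⟩, 0)) := by
    have := hR (Sum.inr (Sum.inr (Sum.inr 1)))
    simpa [ngf, rot] using this.symm
  have b0 : ∀ (i : ℕ) (hi : i + 1 < k), R (Sum.inr (Sum.inl (⟨i + 1, hi⟩, 0))) ↔
      R (Sum.inr (Sum.inl (⟨i, by omega⟩, 0))) := by
    intro i hi
    have := hR (Sum.inr (Sum.inl (⟨i + 1, hi⟩, 0)))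
    simpa [ngf, rot] using this.symm
  have b00 : R (Sum.inr (Sum.inl (⟨0, by omega⟩, 0))) ↔ R (Sum.inr (Sum.inr (Sum.inr 2))) := by
    have := hR (Sum.inr (Sum.inl (⟨0, by omega⟩, 0)))
    simpa [ngf, rot] using this.symm
  have e2 : R (Sum.inr (Sum.inr (Sum.inr 2))) ↔ R (Sum.inr (Sum.inl (⟨0, by omega⟩, 1))) := by
    have := hR (Sum.inr (Sum.inr (Sum.inr 2)))
    simpa [ngf, rot] using this.symm
  have b1 : ∀ (i : ℕ) (hi : i < k), R (Sum.inr (Sum.inl (⟨i, hi⟩, 1))) ↔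
      R (Sum.inl (⟨j + i, by omega⟩, 2)) := by
    intro i hi
    have := hR (Sum.inr (Sum.inl (⟨i, hi⟩, 1)))
    simpa [ngf, rot, add_comm i j] using this.symm
  have b2 : ∀ (i : ℕ) (hi : i + 1 < k), R (Sum.inr (Sum.inl (⟨i, by omega⟩, 2))) ↔
      R (Sum.inr (Sum.inl (⟨i + 1, hi⟩, 1))) := by
    intro i hi
    have := hR (Sum.inr (Sum.inl (⟨i, by omega⟩, 2)))
    simpa [ngf, rot, hi] using this.symm
  have e3 : R (Sum.inr (Sum.inr (Sum.inr 3))) ↔
      R (Sum.inr (Sum.inl (⟨k - 1, by omega⟩, 0))) := by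
    have := hR (Sum.inr (Sum.inr (Sum.inr 3)))
    simpa [ngf, rot] using this.symm
  -- the part with the pendant edges
  have q1 : ∀ i, (hi : i ≤ j) → (R (Sum.inl (⟨i, by omega⟩, 1)) ↔
      R (Sum.inl (⟨0, by omega⟩, 1))) := by
    intro i
    induction i with
    | zero => intro _; exact Iff.rfl
    | succ i ih =>
      intro hi
      rw [← t2 i (by omega), ← p1 i (by omega), ← t1 i (by omega)]
      exact ih (by omega)
  have r1 : R (Sum.inl (⟨0, by omega⟩, 1)) := (q1 j le_rfl).mp hB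
  have T1 : ∀ i (hi : i ≤ j), R (Sum.inl (⟨i, by omega⟩, 1)) := fun i hi => (q1 i hi).mpr r1
  have E0 : R (Sum.inr (Sum.inr (Sum.inr 0))) := e0.mpr r1
  have T0 : ∀ i (hi : i < k + j), R (Sum.inl (⟨i, hi⟩, 0)) := by
    intro i
    induction i with
    | zero => intro _; exact t00.mpr E0
    | succ i ih => intro hi; exact (t0 i hi).mpr (ih (by omega))
  have E1 : R (Sum.inr (Sum.inr (Sum.inr 1))) := e1.mpr (T0 _ _)
  have P : ∀ i (hi : i < j), R (Sum.inr (Sum.inr (Sum.inl ⟨i, hi⟩))) :=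
    fun i hi => (t1 i hi).mp (T1 i hi.le)
  have T2 : ∀ i (hi : i < j), R (Sum.inl (⟨i, by omega⟩, 2)) :=
    fun i hi => (p1 i hi).mp (P i hi)
  -- the part with the rungs
  have L : ∀ i (hi : i < k), R (Sum.inl (⟨j + i, by omega⟩, 1)) ∧
      R (Sum.inl (⟨j + i, by omega⟩, 2)) := by
    intro i
    induction i with
    | zero => intro _; exact ⟨hB, hA⟩
    | succ i ih =>
      intro hi
      obtain ⟨h1, h2⟩ := ih (by omega)
      refine ⟨(t2 (j + i) (by omega)).mp h2, ?_⟩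
      exact (b1 (i + 1) hi).mp ((b2 i hi).mp ((t1' i (by omega)).mp h1))
  have B1 : ∀ i (hi : i < k), R (Sum.inr (Sum.inl (⟨i, hi⟩, 1))) :=
    fun i hi => (b1 i hi).mpr (L i hi).2
  have B2 : ∀ i (hi : i < k), R (Sum.inr (Sum.inl (⟨i, hi⟩, 2))) :=
    fun i hi => (t1' i hi).mp (L i hi).1
  have E2 : R (Sum.inr (Sum.inr (Sum.inr 2))) := e2.mpr (B1 _ _)
  have B0 : ∀ i (hi : i < k), R (Sum.inr (Sum.inl (⟨i, hi⟩, 0))) := by
    intro i
    induction i with
    | zero => intro _; exact b00.mpr E2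
    | succ i ih => intro hi; exact (b0 i hi).mpr (ih (by omega))
  have E3 : R (Sum.inr (Sum.inr (Sum.inr 3))) := e3.mpr (B0 _ _)
  have TT1 : ∀ i (hi : i < k + j), R (Sum.inl (⟨i, hi⟩, 1)) := by
    intro i hi
    by_cases h : i ≤ j
    · exact T1 i h
    · obtain ⟨l, rfl⟩ : ∃ l, i = j + l := ⟨i - j, by omega⟩
      exact (L l (by omega)).1
  have TT2 : ∀ i (hi : i < k + j), R (Sum.inl (⟨i, hi⟩, 2)) := by
    intro i hi
    by_cases h : i < j
    · exact T2 i h
    · obtain ⟨l, rfl⟩ : ∃ l, i = j + l := ⟨i - j, by omega⟩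
      exact (L l (by omega)).2
  rintro (⟨⟨i, hi⟩, c⟩ | (⟨⟨i, hi⟩, c⟩ | (⟨i, hi⟩ | c)))
  · fin_cases c
    · exact T0 i hi
    · exact TT1 i hi
    · exact TT2 i hi
  · fin_cases c
    · exact B0 i hi
    · exact B1 i hi
    · exact B2 i hi
  · exact P i hi
  · fin_cases c
    · exact E0
    · exact E1
    · exact E2
    · exact E3

theorem C0 (_h : ST_NG) : ST_C0 := by
  intro k j _ h
  have hk := NeZero.pos k
  set θ := rot k j 0 * h.toPerm (ngf k j) with hθ
  let A : TT k j := Sum.inl (⟨j, by omega⟩, 2)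
  let B : TT k j := Sum.inl (⟨j, by omega⟩, 1)
  have key := c0_all k j (fun x => SameCycle θ x A ∨ SameCycle θ x B) (by
    intro x
    have e : rot k j 0 (ngf k j x) = θ x := rfl
    rw [e, sameCycle_apply_left, sameCycle_apply_left])
    (Or.inl (SameCycle.refl _ _)) (Or.inr (SameCycle.refl _ _))
  have hs : Function.Surjective (fun b : Bool =>
      (Quotient.mk (SameCycle.setoid θ) (if b then A else B))) := by
    intro q
    induction q using Quotient.inductionOn with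
    | _ x =>
      rcases key x with h1 | h1
      · exact ⟨true, Quotient.sound (s := SameCycle.setoid θ) h1.symm⟩
      · exact ⟨false, Quotient.sound (s := SameCycle.setoid θ) h1.symm⟩
  have := Nat.card_le_card_of_surjective _ hs
  simpa [cyc] using this

end Pool.Agent.Helper78.HW
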