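import Pool.Agent.Helper24.HW.Stmts

/-! Going down with handles. -/

set_option autoImplicit false

namespace Pool.Agent.Helper78.HW

open Equiv Equiv.Perm Pool.Agent.Helper24.HW Pool.Agent.Helper24.HWPub Pool.Agent.Helper98.Gn

theorem ext_refl {C : Type} (M : LM C) : M.Ext M :=
  ⟨fun _ => rfl, fun _ _ h => h, fun h => h, fun h => h⟩

theorem ext_trans {C : Type} {M M' M'' : LM C} (h : M.Ext M') (h' : M'.Ext M'') : M.Ext M'' :=
  ⟨fun A => (h'.1 A).trans (h.1 A), fun A B hA => h'.2.1 A B (h.2.1 A B hA),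
    fun hc => h'.2.2.1 (h.2.2.1 hc), fun hn => h'.2.2.2 (h.2.2.2 hn)⟩

theorem DOWN (HAN : ST_HAN) (PAR : ST_PAR) : ST_DOWN := by
  intro C M hM ε hε hle
  have key : ∀ (n : ℕ) (M : LM C), Nonempty M.D → M.chi = ε + 2 * n →
      ∃ M' : LM C, M'.chi = ε ∧ M.Ext M' := by
    intro n
    induction n with
    | zero =>
      intro M _ h
      exact ⟨M, by simpa using h, ext_refl M⟩
    | succ n ih =>
      intro M hM h
      obtain ⟨M1, h1, h2⟩ := HAN C M hM
      obtain ⟨M2, h3, h4⟩ := ih M1 (h2.2.2.2 hM) (by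
        rw [h1, h]
        push_cast
        ring)
      exact ⟨M2, h3, ext_trans h2 h4⟩
  obtain ⟨a, ha⟩ := (PAR C M).1
  obtain ⟨b, hb⟩ := hε
  refine key (a - b).toNat M hM ?_
  have h0 : 0 ≤ a - b := by omega
  rw [Int.toNat_of_nonneg h0]
  omega

end Pool.Agent.Helper78.HW
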